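import Pool.Agent.Helper59.Dub.Parts

/-!
# In the quantitative part of Dubrovin's conjecture, (a) implies (b)

Let `X` be a Fano variety with semisimple quantum cohomology, `S` the Stokes matrix and `C` the
central connection matrix at a semisimple point, for an admissible oriented line, as in the problem
(`MonodromyData`), and let `E_j` be objects of the derived category of `X` such that (a) is true,
`s_ij = χ(E_i, E_j)`, which by the theorem of Hirzebruch, Riemann and Roch is the pairing `euler` of the
Chern characters `v j = ch (E_j)`. We prove: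

* `S` is replaced by its transpose if one compares `X_-` and `X_+` on the other half of the line;
* the `ch (E_j)` are a basis of the cohomology and (b) is true: `C = C' C''`, where the columns of `C''`
  are the classes `(2 π i) ^ deg ch (E_j)` and `C'` commutes with `c_1`. So (b) is not a separate
  condition. With the bare Chern characters as columns of `C''` (b) is false, if `c_1 ≠ 0`;
* the same if the other half of the line is used in the definition of `S`, with `- 2 π i`;
* if the calibration satisfies `𝒮(-z)^* 𝒮(z) = 1` then (a) is equivalent to (b) together with an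
  isometry property of `C'`;
* if moreover the cohomology is generated by `c_1` then (a) is equivalent to
  `C_j = γ ∪ (2 π i) ^ deg ch (E_j)` for a class `γ` with
  `γ γ^∨ = (- 2 π) ^ (- D) (2 π i) ^ deg Â(X)`. The Gamma class `Γ` satisfies
  `Γ Γ^∨ = (2 π i) ^ deg Â(X)`; so (a) says that the central connection matrix is the one of the Gamma
  conjecture II up to a constant and to the exponential of a class of odd degrees (the odd zeta
  values).

The idea: `X_-(-z)^T η X_+(z) = 1`, so that `S` is the Gram matrix of a bilinear form at the columns of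
`C`, with `(-1) ^ D exp (- 2 π i c_1)` (the monodromy at `z = ∞`) as its Serre operator, while the Serre
operator of the Euler pairing is `(-1) ^ D exp (- c_1)`. An isometry of the forms intertwines the two
operators and hence their logarithms.
-/

set_option autoImplicit false

namespace Pool.Agent.Results.MP_78bf89_ag.StokesImpliesConnection

open Pool.Agent.Helper59.Dub Complex

universe u v

theorem result {H : Type u} [CommRing H] [Algebra ℂ H] [Module.Finite ℂ H] {D : ℕ}
    (X : CohRing H D) {ι : Type v} [Fintype ι] [DecidableEq ι]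
    (hN : Module.finrank ℂ H = Fintype.card ι) (M : MonodromyData X ι) :
    (∀ w j, M.Xm (w + 2 * Real.pi * I) j = ∑ i, M.S.transpose i j • M.Xp w i) ∧
    (∀ v : ι → H, M.PartA v →
      LinearIndependent ℂ v ∧ M.PartB (fun j => X.scale (2 * Real.pi * I) (v j)) ∧
      (X.c1 ≠ 0 → ¬ M.PartB v)) ∧
    (∀ v : ι → H, (∀ i j, M.S.transpose i j = X.euler (v i) (v j)) →
      LinearIndependent ℂ v ∧ M.PartB (fun j => X.scale (-(2 * Real.pi * I)) (v j))) ∧
    (M.IsUnitary → ∀ v : ι → H, M.PartA v ↔
      ∃ C' : H →ₗ[ℂ] H, (∀ j, M.C j = C' (X.scale (2 * Real.pi * I) (v j))) ∧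
        (∀ a, C' (X.c1 * a) = X.c1 * C' a) ∧
        ∀ a b, X.integral (X.expC1 (Real.pi * I) * X.dual (C' a) * C' b) =
          ((-(2 * Real.pi) : ℂ) ^ D)⁻¹ * X.integral (X.expC1 (Real.pi * I) *
            X.scale (2 * Real.pi * I) X.Ahat * X.dual a * b)) ∧
    (M.IsUnitary → Algebra.adjoin ℂ {X.c1} = ⊤ → ∀ v : ι → H, M.PartA v ↔
      ∃ γ : H, (∀ j, M.C j = γ * X.scale (2 * Real.pi * I) (v j)) ∧
        γ * X.dual γ = ((-(2 * Real.pi) : ℂ) ^ D)⁻¹ • X.scale (2 * Real.pi * I) X.Ahat) := by
  refine ⟨fun w j => M.other_half hN w j, fun v ha => ⟨linInd_of_gram M hN v ha, ?_, ?_⟩,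
    fun v ha => ?_, fun hU v => unitary_iff M hN hU v, fun hU hG v => generated_iff M hN hU hG v⟩
  · obtain ⟨T, h1, h2, -⟩ := stokes_imp_connection M hN v ha
    exact ⟨T.toLinearMap, h1, h2⟩
  · rintro hc ⟨T, h1, h2⟩
    exact hc (literal M hN v ha T h1 h2)
  · obtain ⟨h0, T, h1, h2⟩ := stokes_imp_connection' M hN v ha
    exact ⟨h0, T.toLinearMap, h1, h2⟩

end Pool.Agent.Results.MP_78bf89_ag.StokesImpliesConnection
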